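import Pool.Agent.H4.TA.Targets2

/-!
# The boundary of the region of staying probabilities for long walks: the partial sums of a
slowly varying sequence
-/

set_option autoImplicit false

open Finset Filter Topology Pool.Agent.H43.TC Pool.Agent.H4.TA

namespace Pool.Agent.H41.TAS

theorem pf_EQT (hSL2 : T_SL2) : T_EQT := by
  intro q hq hpos hslow
  obtain ⟨h1, _⟩ := hSL2 q hq hpos hslow
  rw [Metric.tendsto_atTop]
  intro ε hε
  set e : ℝ := min ε 1 / 4 with he
  have hmin : 0 < min ε 1 := lt_min hε one_pos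
  have he0 : 0 < e := by rw [he]; positivity
  have he1 : 4 * e ≤ ε := by
    rw [he]
    have := min_le_left ε 1
    linarith
  have he2 : 4 * e ≤ 1 := by
    rw [he]
    have := min_le_right ε 1
    linarith
  obtain ⟨t₀, ht₀⟩ := h1 e he0
  obtain ⟨N, hN⟩ := exists_nat_ge (1 / e)
  refine ⟨max t₀ (N + 1), fun t ht => ?_⟩
  have ht1 : t₀ ≤ t := le_trans (le_max_left _ _) ht
  have ht2 : N + 1 ≤ t := le_trans (le_max_right _ _) ht
  have htN : (N : ℝ) + 1 ≤ t := by exact_mod_cast ht2
  have htpos : (0 : ℝ) < t := by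
    have : (0 : ℝ) ≤ N := Nat.cast_nonneg N
    linarith
  have het : 1 ≤ e * t := by
    have h3 : 1 / e ≤ (t : ℝ) := by linarith
    rw [div_le_iff₀ he0] at h3
    linarith
  have hqt : 0 < q t := hpos t
  have hden : 0 < (t : ℝ) * q t := mul_pos htpos hqt
  have hup := ht₀ t ht1
  have hlow : ((t : ℝ) + 1) * q t ≤ ∑ s ∈ range (t + 1), q s := by
    have h4 : ∑ _s ∈ range (t + 1), q t ≤ ∑ s ∈ range (t + 1), q s :=
      Finset.sum_le_sum fun s hs => hq (Nat.lt_succ_iff.mp (mem_range.mp hs))
    rw [sum_const, card_range, nsmul_eq_mul] at h4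
    push_cast at h4
    exact h4
  rw [Real.dist_eq, abs_lt]
  constructor
  · have h5 : 1 ≤ (∑ s ∈ range (t + 1), q s) / (t * q t) := by
      rw [le_div_iff₀ hden]
      nlinarith
    linarith
  · have h6 : (∑ s ∈ range (t + 1), q s) / (t * q t) ≤ (1 + e) * (1 + e) := by
      rw [div_le_iff₀ hden]
      have h7 : ((t : ℝ) + 1) * q t ≤ (1 + e) * (t * q t) := by nlinarith
      calc ∑ s ∈ range (t + 1), q s ≤ (1 + e) * (((t : ℝ) + 1) * q t) := hup
        _ ≤ (1 + e) * ((1 + e) * (t * q t)) := by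
            apply mul_le_mul_of_nonneg_left h7
            linarith
        _ = (1 + e) * (1 + e) * (t * q t) := by ring
    nlinarith

end Pool.Agent.H41.TAS

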